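import Mathlib
import Pool.Agent.TH53.SL6

/-!
# Parry powers of Perron numbers with few distinct zeros modulo a prime number

Let `β > 1` be a Perron number of degree `n`, let `p` be a prime number, and let `s` be the number of
distinct zeros of the minimal polynomial of `β` modulo `p` (in an algebraic closure of the field with
`p` elements).

(1) If `4 p s log (p n) ≤ ε ^ 2 n log p` with `0 < ε ≤ 1`, and `β < p ^ ((1 - ε) / 2)`, then
`β ^ m` is a Parry number for only finitely many `m`.

(2) If `β` is smaller than Lehmer's number and `16 p s log (p n) ≤ n log p`, then `β ^ m` is a Parry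
number for only finitely many `m`.

There is no hypothesis on the powers of the conjugates of `β`: if infinitely many powers of `β` are
Parry numbers then all the other conjugates of `β` lie in the closed unit disc, so the `m`-th powers
of the conjugates are distinct for every `m ≥ 1`; the Vandermonde determinant of the `p ^ t`-th
powers of the conjugates, for a suitable `t`, is divisible by a high power of `p`, and Hadamard's
inequality gives `β ≥ p ^ ((1 - ε) / 2)`.
-/

set_option autoImplicit false

open Polynomial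

namespace Pool.Agent.Results.MP_1f45fc_nt.FewZerosModP

/-- The number of distinct zeros of `f` modulo `p`, in an algebraic closure of the field with `p`
elements. -/
noncomputable def zerosMod (p : ℕ) [Fact p.Prime] (f : ℤ[X]) : ℕ :=
  ((f.map (Int.castRingHom (ZMod p))).rootSet (AlgebraicClosure (ZMod p))).ncard

/-- `β > 1` is an algebraic integer whose other conjugates have modulus less than `β`. -/
def IsPerron (β : ℝ) : Prop :=
  1 < β ∧ IsIntegral ℤ β ∧
    ∀ z : ℂ, aeval z (minpoly ℤ β) = 0 → z ≠ (β : ℂ) → ‖z‖ < β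

/-- The set of the `m ≥ 1` such that `β ^ m` is a Parry number, that is, the orbit of `1` under
`x ↦ fract (β ^ m * x)` is finite. -/
def parryPowers (β : ℝ) : Set ℕ :=
  {m : ℕ | 1 ≤ m ∧ Set.Finite (Set.range (fun k : ℕ =>
    (fun x : ℝ => Int.fract (β ^ m * x))^[k] (1 : ℝ)))}

/-- **Perron numbers whose minimal polynomial has few distinct zeros modulo `p`.** -/
theorem result (β : ℝ) (hβ : IsPerron β) (p : ℕ) [Fact p.Prime] :
    (∀ ε : ℝ, 0 < ε → ε ≤ 1 →
      4 * (p : ℝ) * zerosMod p (minpoly ℤ β) * Real.log (p * (minpoly ℤ β).natDegree) ≤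
        ε ^ 2 * (minpoly ℤ β).natDegree * Real.log p →
      β < (p : ℝ) ^ ((1 - ε) / 2) → (parryPowers β).Finite) ∧
    (16 * (p : ℝ) * zerosMod p (minpoly ℤ β) * Real.log (p * (minpoly ℤ β).natDegree) ≤
        (minpoly ℤ β).natDegree * Real.log p →
      ∀ τ : ℝ, 1 < τ →
        τ ^ 10 + τ ^ 9 - τ ^ 7 - τ ^ 6 - τ ^ 5 - τ ^ 4 - τ ^ 3 + τ + 1 = 0 →
        β < τ → (parryPowers β).Finite) := by
  obtain ⟨h1, h2, h3⟩ := hβ
  refine ⟨fun ε h4 h5 h6 h7 => ?_, fun h4 τ hτ1 hτ hβτ => ?_⟩
  · exact Pool.Agent.TH53.SL.parry_finite h1 h2 h3 p ε h4 h5 h6 h7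
  · exact Pool.Agent.TH53.SL.parry_finite_lehmer hτ1 hτ h1 hβτ h2 h3 p h4

end Pool.Agent.Results.MP_1f45fc_nt.FewZerosModP
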