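import Mathlib
import Pool.Agent.TH53.SL6
import Pool.Agent.TH860.LQ.Fin

/-!
# Parry powers of Perron numbers and local factors of the minimal polynomial modulo a prime

Let `β > 1` be a Perron number with minimal polynomial `f` of degree `d`, let `p` be a prime and let
`f ≡ A B` modulo `p` with `A`, `B` coprime. Let `a = deg A`. Nothing is assumed on the factor `B`.

(1) Let `m ≥ 1` and let `G` be a monic integer polynomial of degree `D ≥ 1` such that `A` divides
`G (X ^ m)` modulo `p`. If `D d (log d + 2 m log β) < a (a - 2 D) log p`, then `β ^ k` is a Parry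
number for only finitely many `k`.

(2) Suppose that `p ^ r ≥ 20`, `p ^ r ≥ 20 log d` and that all the irreducible factors of `A` have
multiplicity at least `20 p ^ r` in `A`. If `log β + 1 / 40 ≤ (2 / 5) (a / d) log p`, then `β ^ k` is
a Parry number for only finitely many `k`.

(3) Suppose that `p ^ r ≥ 8` and that all the irreducible factors of `A` have multiplicity at least
`p ^ r` in `A`. If `4 d ((log d) / p ^ r + 2 log β) < a log p`, then `β ^ k` is a Parry number for
only finitely many `k`.

If infinitely many powers of `β` are Parry numbers then all the other conjugates of `β` lie in the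
closed unit disc, so the `m`-th powers of the conjugates are distinct. By Hensel's lemma `A`
corresponds to `a` conjugates `z`, for which `G (z ^ m)` is divisible by `p`, and the others are
arbitrary; the discriminant of the `m`-th powers is divisible by a power of `p` whose exponent is
quadratic in `a`, and Hadamard's inequality gives a lower bound for `β`.
-/

set_option autoImplicit false

open Polynomial

namespace Pool.Agent.Results.MP_1f45fc_nt.LocalFactors

/-- `β > 1` is an algebraic integer whose other conjugates have modulus less than `β`. -/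
def IsPerron (β : ℝ) : Prop :=
  1 < β ∧ IsIntegral ℤ β ∧
    ∀ z : ℂ, aeval z (minpoly ℤ β) = 0 → z ≠ (β : ℂ) → ‖z‖ < β

/-- The set of the `k ≥ 1` such that `β ^ k` is a Parry number, that is, the orbit of `1` under
`x ↦ fract (β ^ k * x)` is finite. -/
def parryPowers (β : ℝ) : Set ℕ :=
  {k : ℕ | 1 ≤ k ∧ Set.Finite (Set.range (fun j : ℕ =>
    (fun x : ℝ => Int.fract (β ^ k * x))^[j] (1 : ℝ)))}

/-- The reduction of an integer polynomial modulo `p`. -/
noncomputable def red (p : ℕ) (f : ℤ[X]) : (ZMod p)[X] := f.map (Int.castRingHom (ZMod p))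

/-- All the irreducible factors of `A` have multiplicity at least `n` in `A`. -/
def AllMult {p : ℕ} (n : ℕ) (A : (ZMod p)[X]) : Prop :=
  ∀ R : (ZMod p)[X], Irreducible R → R ∣ A → R ^ n ∣ A

/-- **Parry powers and local factors modulo a prime.** -/
theorem result (β : ℝ) (hβ : IsPerron β) (p : ℕ) (hp : p.Prime) (A B : (ZMod p)[X])
    (hAB : red p (minpoly ℤ β) = A * B) (hco : IsCoprime A B) :
    (∀ m : ℕ, 1 ≤ m → ∀ G : ℤ[X], G.Monic → 1 ≤ G.natDegree → A ∣ red p (G.comp (X ^ m)) →
      (G.natDegree : ℝ) * (minpoly ℤ β).natDegree *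
          (Real.log (minpoly ℤ β).natDegree + 2 * m * Real.log β) <
        A.natDegree * (A.natDegree - 2 * G.natDegree) * Real.log p → (parryPowers β).Finite) ∧
    (∀ r : ℕ, 20 ≤ p ^ r → 20 * Real.log (minpoly ℤ β).natDegree ≤ (p : ℝ) ^ r →
      AllMult (20 * p ^ r) A →
      Real.log β + 1 / 40 ≤
        2 / 5 * ((A.natDegree : ℝ) / (minpoly ℤ β).natDegree) * Real.log p →
      (parryPowers β).Finite) ∧
    (∀ r : ℕ, 8 ≤ p ^ r → AllMult (p ^ r) A →
      4 * (minpoly ℤ β).natDegree * (Real.log (minpoly ℤ β).natDegree / (p : ℝ) ^ r +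
        2 * Real.log β) < (A.natDegree : ℝ) * Real.log p → (parryPowers β).Finite) := by
  obtain ⟨h1, h2, h3⟩ := hβ
  refine ⟨fun m hm G hGm hG0 hAG h => ?_, fun r h4 h5 h6 h => ?_, fun r h4 h6 h => ?_⟩
  · exact Pool.Agent.TH860.LQ.parry_local h1 h2 h3 hp m hm A B hAB hco G hGm (by omega) hAG h
  · refine Pool.Agent.TH860.LQ.parry_large h1 h2 h3 hp A B r hAB hco h6 h4 h5 ?_
    have hd0 : (0 : ℝ) < (minpoly ℤ β).natDegree := by exact_mod_cast minpoly.natDegree_pos h2
    have h7 := mul_le_mul_of_nonneg_left h hd0.le
    have h8 : ((minpoly ℤ β).natDegree : ℝ) *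
        (2 / 5 * ((A.natDegree : ℝ) / (minpoly ℤ β).natDegree) * Real.log p) =
        2 / 5 * (A.natDegree * Real.log p) := by
      field_simp
    rw [h8] at h7
    linarith
  · exact Pool.Agent.TH860.LQ.parry_small h1 h2 h3 hp A B r hAB hco h6 h4 h

end Pool.Agent.Results.MP_1f45fc_nt.LocalFactors
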