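import Mathlib
import Pool.Agent.TH53.SL6
import Pool.Agent.TH860.LP.Fin

/-!
# Parry powers of Perron numbers whose minimal polynomial divides a polynomial in `X ^ m` modulo `q`

Let `β > 1` be a Perron number with minimal polynomial `f` of degree `d`, let `q ≥ 2` and `m ≥ 1` be
integers (`q` need not be a prime, and nothing is assumed on the relation between `m` and `q`), and
let `G` be a monic integer polynomial of degree `D ≥ 1` such that `f` divides `G (X ^ m)` modulo `q`.

(1) If `D (log d + 2 m log β) < (d - D) log q`, then `β ^ k` is a Parry number for only finitely many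
`k`.

Suppose moreover that all the coefficients `a_i` of `f` with `m ∤ i` are divisible by `q`.

(2) If `d * β ^ (2 m) < q ^ (m - 1)`, then `β ^ k` is a Parry number for only finitely many `k`.

(3) If `β` is smaller than Lehmer's number and `d ^ 2 * 2 ^ m ≤ q ^ (2 (m - 1))`, then `β ^ k` is a
Parry number for only finitely many `k`.

There is no hypothesis on the powers of the conjugates of `β`: if infinitely many powers of `β` are
Parry numbers then all the other conjugates of `β` lie in the closed unit disc, so the `m`-th powers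
of the conjugates are distinct; their Vandermonde determinant is divisible by a high power of `q`,
and Hadamard's inequality gives a lower bound for `β`.
-/

set_option autoImplicit false

open Polynomial

namespace Pool.Agent.Results.MP_1f45fc_nt.PowersModQ

/-- `β > 1` is an algebraic integer whose other conjugates have modulus less than `β`. -/
def IsPerron (β : ℝ) : Prop :=
  1 < β ∧ IsIntegral ℤ β ∧
    ∀ z : ℂ, aeval z (minpoly ℤ β) = 0 → z ≠ (β : ℂ) → ‖z‖ < β

/-- The set of the `k ≥ 1` such that `β ^ k` is a Parry number, that is, the orbit of `1` under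
`x ↦ fract (β ^ k * x)` is finite. -/
def parryPowers (β : ℝ) : Set ℕ :=
  {k : ℕ | 1 ≤ k ∧ Set.Finite (Set.range (fun j : ℕ =>
    (fun x : ℝ => Int.fract (β ^ k * x))^[j] (1 : ℝ)))}

/-- **Perron numbers whose minimal polynomial divides a polynomial in `X ^ m` modulo `q`.** -/
theorem result (β : ℝ) (hβ : IsPerron β) (q m : ℕ) (hq : 2 ≤ q) (hm : 1 ≤ m) :
    (∀ G : ℤ[X], G.Monic → 1 ≤ G.natDegree →
      (∃ A B : ℤ[X], G.comp (X ^ m) = A * minpoly ℤ β + C (q : ℤ) * B) →
      (G.natDegree : ℝ) * (Real.log (minpoly ℤ β).natDegree + 2 * m * Real.log β) <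
        (((minpoly ℤ β).natDegree : ℝ) - G.natDegree) * Real.log q → (parryPowers β).Finite) ∧
    ((∀ i, ¬ m ∣ i → (q : ℤ) ∣ (minpoly ℤ β).coeff i) →
      ((minpoly ℤ β).natDegree * β ^ (2 * m) < (q : ℝ) ^ (m - 1) → (parryPowers β).Finite) ∧
      ((minpoly ℤ β).natDegree ^ 2 * 2 ^ m ≤ q ^ (2 * (m - 1)) →
        ∀ τ : ℝ, 1 < τ →
          τ ^ 10 + τ ^ 9 - τ ^ 7 - τ ^ 6 - τ ^ 5 - τ ^ 4 - τ ^ 3 + τ + 1 = 0 →
          β < τ → (parryPowers β).Finite)) := by
  obtain ⟨h1, h2, h3⟩ := hβ
  refine ⟨fun G hGm hG0 hdvd h => ?_, fun hc => ⟨fun h => ?_, fun h τ hτ1 hτ hβτ => ?_⟩⟩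
  · exact Pool.Agent.TH860.LP.parry_finite' h1 h2 h3 q m (by omega) hm G hGm (by omega) hdvd h
  · exact Pool.Agent.TH860.LP.parry_gap h1 h2 h3 q m (by omega) hm hc h
  · refine Pool.Agent.TH860.LP.parry_gap h1 h2 h3 q m (by omega) hm hc ?_
    have h4 : β < (2 : ℝ) ^ ((1 : ℝ) / 4) :=
      hβτ.trans (Pool.Agent.TH53.SL.lehmer_root_lt hτ1 hτ)
    have h5 : β ^ 4 < 2 := by
      have h6 : β ^ 4 < ((2 : ℝ) ^ ((1 : ℝ) / 4)) ^ 4 :=
        pow_lt_pow_left₀ h4 (by linarith) (by norm_num)
      rwa [← Real.rpow_natCast ((2 : ℝ) ^ ((1 : ℝ) / 4)) 4, ← Real.rpow_mul (by norm_num),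
        show (1 : ℝ) / 4 * ((4 : ℕ) : ℝ) = 1 by norm_num, Real.rpow_one] at h6
    have hd0 : 0 < (minpoly ℤ β).natDegree := minpoly.natDegree_pos h2
    have hd0' : (0 : ℝ) < (minpoly ℤ β).natDegree := by exact_mod_cast hd0
    have h7 : (((minpoly ℤ β).natDegree : ℝ) * β ^ (2 * m)) ^ 2 < ((q : ℝ) ^ (m - 1)) ^ 2 := by
      calc (((minpoly ℤ β).natDegree : ℝ) * β ^ (2 * m)) ^ 2
          = ((minpoly ℤ β).natDegree : ℝ) ^ 2 * (β ^ 4) ^ m := by
            rw [mul_pow, ← pow_mul, ← pow_mul]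
            congr 2
            ring
        _ < ((minpoly ℤ β).natDegree : ℝ) ^ 2 * 2 ^ m := by
            apply mul_lt_mul_of_pos_left _ (by positivity)
            exact pow_lt_pow_left₀ h5 (by positivity) (by omega)
        _ ≤ (q : ℝ) ^ (2 * (m - 1)) := by exact_mod_cast h
        _ = ((q : ℝ) ^ (m - 1)) ^ 2 := by rw [← pow_mul, mul_comm]
    exact lt_of_pow_lt_pow_left₀ 2 (by positivity) h7

end Pool.Agent.Results.MP_1f45fc_nt.PowersModQ
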